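import Pool.Agent.H174.GM.Stmts2

set_option autoImplicit false

namespace Pool.Agent.H77.GM174

open Finset Pool.Agent.H174.GM

/-- Magog walks as sequences -/
def W (k m : ℕ) : Set (Fin (m + 1) → (Fin k → ℕ)) :=
  {w | w 0 = (fun _ => 0) ∧
    ∀ t : Fin m, Step (w t.castSucc) (w t.succ) ∧ ∀ i, 1 ≤ w t.succ i}

lemma W_bound {k m : ℕ} {w : Fin (m + 1) → (Fin k → ℕ)} (hw : w ∈ W k m) (t : Fin (m + 1))
    (i : Fin k) : w t i ≤ t.1 := by
  induction t using Fin.induction with
  | zero => rw [hw.1]; exact Nat.zero_le _
  | succ t ih =>
    have h := (hw.2 t).1.1 i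
    have h2 : (t.succ : Fin (m + 1)).1 = t.1 + 1 := rfl
    have h3 : (t.castSucc : Fin (m + 1)).1 = t.1 := rfl
    omega

lemma W_fin (k m : ℕ) : (W k m).Finite := by
  refine Set.Finite.subset (Set.Finite.pi' (t := fun _ : Fin (m + 1) =>
    {f : Fin k → ℕ | ∀ i, f i ∈ Set.Iic m})
    (fun t => Set.Finite.pi' (fun i => Set.finite_Iic m))) ?_
  intro w hw t i
  have := W_bound hw t i
  have h2 := t.2
  show w t i ≤ m
  omega

open Classical in
lemma NM_card (k m : ℕ) (a : Fin k → ℕ) :
    NM k m a = ((W_fin k m).toFinset.filter (fun w => w (Fin.last m) = a)).card := by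
  induction m generalizing a with
  | zero =>
    by_cases ha : a = (fun _ => 0)
    · have : (W_fin k 0).toFinset.filter (fun w => w (Fin.last 0) = a) =
          {fun _ => (fun _ => 0)} := by
        ext w
        simp only [mem_filter, Set.Finite.mem_toFinset, mem_singleton]
        constructor
        · rintro ⟨⟨h0, -⟩, -⟩
          funext t
          have : t = 0 := Fin.ext (by have := t.2; simp only [Fin.val_zero]; omega)
          rw [this]; exact h0
        · rintro rfl
          refine ⟨⟨rfl, fun t => t.elim0⟩, ha.symm⟩
      rw [this, card_singleton]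
      simp [NM, ha]
    · have : (W_fin k 0).toFinset.filter (fun w => w (Fin.last 0) = a) = ∅ := by
        refine filter_eq_empty_iff.2 ?_
        intro w hw h
        rw [Set.Finite.mem_toFinset] at hw
        apply ha
        rw [← h]
        exact hw.1
      rw [this, card_empty]
      simp [NM, ha]
  | succ m ih =>
    by_cases ha : ∀ i, 1 ≤ a i
    · have hN : NM k (m + 1) a = ∑ b ∈ (Fintype.piFinset fun _ : Fin k => Finset.range (m + 1)).filter
          (fun b => Step b a), NM k m b := by
        rw [NM, if_pos ha]
      rw [hN, card_eq_sum_card_fiberwise (f := fun w => w (Fin.last m).castSucc)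
        (t := (Fintype.piFinset fun _ : Fin k => Finset.range (m + 1)).filter (fun b => Step b a))]
      · refine sum_congr rfl fun b hb => ?_
        rw [ih b]
        refine card_nbij' (fun w => Fin.snoc w a) (fun w => Fin.init w) ?_ ?_ ?_ ?_
        · intro w hw
          simp only [coe_filter, Set.Finite.mem_toFinset, Set.mem_ofPred_eq] at hw
          simp only [coe_filter, mem_filter, Set.Finite.mem_toFinset, Set.mem_ofPred_eq]
          refine ⟨⟨⟨?_, ?_⟩, ?_⟩, ?_⟩
          · have : (0 : Fin (m + 1 + 1)) = (0 : Fin (m + 1)).castSucc := rfl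
            rw [this, Fin.snoc_castSucc]
            exact hw.1.1
          · intro t
            refine Fin.lastCases ?_ (fun s => ?_) t
            · have e : (Fin.last m).succ = Fin.last (m + 1) := rfl
              rw [e, Fin.snoc_last, Fin.snoc_castSucc, hw.2]
              exact ⟨(mem_filter.1 hb).2, ha⟩
            · have e : s.castSucc.succ = s.succ.castSucc := rfl
              rw [e, Fin.snoc_castSucc, Fin.snoc_castSucc]
              exact hw.1.2 s
          · exact Fin.snoc_last _ _
          · rw [Fin.snoc_castSucc]
            exact hw.2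
        · intro w hw
          simp only [coe_filter, mem_filter, Set.Finite.mem_toFinset, Set.mem_ofPred_eq] at hw
          simp only [coe_filter, Set.Finite.mem_toFinset, Set.mem_ofPred_eq]
          refine ⟨⟨hw.1.1.1, fun t => ?_⟩, hw.2⟩
          have := hw.1.1.2 t.castSucc
          exact this
        · intro w hw
          exact Fin.init_snoc _ _
        · intro w hw
          simp only [coe_filter, mem_filter, Set.Finite.mem_toFinset, Set.mem_ofPred_eq] at hw
          show Fin.snoc (Fin.init w) a = w
          rw [← hw.1.2]
          exact Fin.snoc_init_self w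
      · intro w hw
        simp only [coe_filter, Set.Finite.mem_toFinset, Set.mem_ofPred_eq] at hw
        simp only [coe_filter, Set.mem_ofPred_eq, Fintype.mem_piFinset, mem_range]
        refine ⟨fun i => ?_, ?_⟩
        · have := W_bound hw.1 (Fin.last m).castSucc i
          have h3 : ((Fin.last m).castSucc : Fin (m + 1 + 1)).1 = m := rfl
          omega
        · have := (hw.1.2 (Fin.last m)).1
          have e : (Fin.last m).succ = Fin.last (m + 1) := rfl
          rw [e, hw.2] at this
          exact this
    · have : (W_fin k (m + 1)).toFinset.filter (fun w => w (Fin.last (m + 1)) = a) = ∅ := by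
        refine filter_eq_empty_iff.2 ?_
        intro w hw h
        rw [Set.Finite.mem_toFinset] at hw
        apply ha
        intro i
        have := (hw.2 (Fin.last m)).2 i
        have e : (Fin.last m).succ = Fin.last (m + 1) := rfl
        rw [e, h] at this
        exact this
      rw [this, card_empty, NM, if_neg ha]

open Classical in
/-- **WM** -/
theorem wm : Pool.Agent.H174.GM.S_WM := by
  intro k m
  have h : Set.ncard (W k m) = (W_fin k m).toFinset.card := Set.ncard_eq_toFinset_card _ _
  show magogW m k = Set.ncard (W k m)
  rw [h, card_eq_sum_card_fiberwise (f := fun w => w (Fin.last m))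
    (t := Fintype.piFinset fun _ : Fin k => Finset.range (m + 1))]
  · rw [magogW]
    exact sum_congr rfl fun a _ => NM_card k m a
  · intro w hw
    rw [mem_coe, Set.Finite.mem_toFinset] at hw
    rw [mem_coe, Fintype.mem_piFinset]
    intro i
    rw [mem_range]
    have := W_bound hw (Fin.last m) i
    have h3 : (Fin.last m : Fin (m + 1)).1 = m := rfl
    show w (Fin.last m) i < m + 1
    omega

end Pool.Agent.H77.GM174
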